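import Pool.Agent.Lib.MP_c72338_lc.Ph6

/-!
Over a rational function field over a finite field, the existence of zeros of polynomials with
`n + 1` terms in `n` variables and affinely independent exponent vectors is undecidable.
-/

namespace Pool.Agent.Results.MP_c72338_lc.FunctionField

open Finset Pool.Agent.Lib.MP_c72338_lc Pool.Agent.Lib.MP_c72338_lc.Ph Nat.Partrec

def ex (p v u : ℕ) : ℕ :=
  if v = 0 then 0 else if u / 7 = (v - 1) / 7 then tb p ((v - 1) % 7) (u % 7) else 0

theorem indep {p q : ℕ} (hp : p ≠ 0) (hq : q ≠ 0) (n : ℕ) :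
    AffineIndependent ℚ fun (v : Fin (n + 1)) (u : Fin n) => ((ex p v u * q : ℕ) : ℚ) := by
  have t1 : ∀ s < 7, ∀ u < 7, s < u → tb p s u = 0 := fun s hs u hu h => by
    interval_cases s <;> interval_cases u <;> first | omega | rfl
  have t2 : ∀ s < 7, tb p s s ≠ 0 := fun s hs => by interval_cases s <;> simp [tb, hp]
  rw [affineIndependent_iff_of_fintype]
  intro w h0 h1
  rw [Finset.weightedVSub_eq_linear_combination _ h0] at h1
  have hd : (Matrix.of fun v u : Fin n => ((ex p (v + 1) u * q : ℕ) : ℚ)).det ≠ 0 := by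
    rw [Matrix.det_of_isLowerTriangular]
    · refine prod_ne_zero_iff.2 fun v _ => ?_
      simp [ex, t2 (v % 7) (Nat.mod_lt _ (by norm_num)), hq]
    · intro v u h
      have h' : (v : ℕ) < u := h
      simp only [ex, Matrix.of_apply, Nat.add_sub_cancel, Nat.add_eq_zero_iff, one_ne_zero,
        and_false, ↓reduceIte]
      split_ifs with h6
      · rw [t1 _ (Nat.mod_lt _ (by norm_num)) _ (Nat.mod_lt _ (by norm_num)) (by omega)]
        simp
      · simp
  have h2 := Matrix.eq_zero_of_vecMul_eq_zero hd (v := fun v => w v.succ) (by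
    funext u
    have := congrFun h1 u
    simp only [Fin.sum_univ_succ, Finset.sum_apply, Pi.smul_apply] at this
    simpa [Matrix.vecMul, dotProduct, ex] using this)
  have h3 : ∀ v : Fin n, w v.succ = 0 := congrFun h2
  refine Fin.cases ?_ h3
  simpa [Fin.sum_univ_succ, h3] using h0

variable {F : Type} [Field F] {p : ℕ}

/-- The value of the monomial `v`. -/
noncomputable def mv (p : ℕ) (z : ℕ → RatFunc F) (v : ℕ) : RatFunc F :=
  if v = 0 then 1 else mn p (fun u => z (7 * ((v - 1) / 7) + u)) ((v - 1) % 7)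

theorem prod_ex {G v : ℕ} (hv : v < 7 * G + 1) (z : ℕ → RatFunc F) :
    ∏ u ∈ range (7 * G), z u ^ ex p v u = mv p z v := by
  rcases eq_or_ne v 0 with rfl | h0
  · simp [ex, mv]
  obtain ⟨c, hc⟩ := Nat.exists_eq_add_of_le (show 7 * ((v - 1) / 7) + 7 ≤ 7 * G by omega)
  rw [mv, if_neg h0, hc, prod_range_add, prod_range_add, prod_eq_one, prod_eq_one (s := range c),
    one_mul, mul_one]
  · refine prod_congr rfl fun u hu => ?_
    have := mem_range.1 hu
    rw [ex, if_neg h0, if_pos (by omega), show (7 * ((v - 1) / 7) + u) % 7 = u by omega]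
  · intro u _
    rw [ex, if_neg h0, if_neg (by omega), pow_zero]
  · intro u hu
    have := mem_range.1 hu
    rw [ex, if_neg h0, if_neg (by omega), pow_zero]

theorem evS_append (m : ℕ → RatFunc F) (C E : Sys.Eqn) :
    Sys.evS RatFunc.X m (C ++ E) = Sys.evS RatFunc.X m C + Sys.evS RatFunc.X m E := by
  simp [Sys.evS]

theorem evS_cons (m : ℕ → RatFunc F) (v : ℕ) (E : Sys.Eqn) :
    Sys.evS RatFunc.X m ((1, 0, v) :: E) = m v + Sys.evS RatFunc.X m E := by
  simp [Sys.evS]

theorem dense (C : Sys.Eqn) : ∃ (G : ℕ) (c : ℕ → Polynomial F), ∀ n, G ≤ n → ∀ m : ℕ → RatFunc F,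
    ∑ j ∈ range n, am (c j) * m j = Sys.evS RatFunc.X m C := by
  induction C with
  | nil => exact ⟨0, 0, fun _ _ _ => by simp [Sys.evS]⟩
  | cons s C ih =>
    obtain ⟨G, c, h⟩ := ih
    refine ⟨G + s.2.2 + 1, fun j => (if j = s.2.2 then (s.1 : Polynomial F) * Polynomial.X ^ s.2.1 else 0) + c j,
      fun n hn m => ?_⟩
    simp only [map_add, add_mul, sum_add_distrib, h n (by omega)]
    rw [sum_eq_single_of_mem s.2.2 (mem_range.2 (by omega)) fun v _ hv => by simp [hv]]
    simp [Sys.evS]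

variable [Fq F p]

theorem frob (e : ℕ) (m : ℕ → RatFunc F) (E : Sys.Eqn) : Sys.evS RatFunc.X m E ^ p ^ e =
    Sys.evS RatFunc.X (fun v => m v ^ p ^ e) (E.map fun s => (s.1, s.2.1 * p ^ e, s.2.2)) := by
  obtain ⟨φ, h⟩ := hom (R := RatFunc F) p e
  rw [h, Sys.evS, map_list_sum, Sys.evS, List.map_map, List.map_map]
  congr 1
  refine List.map_congr_left fun s _ => ?_
  simp only [Function.comp, map_mul, map_intCast, h, pow_mul]

theorem split {A B : RatFunc F} : A ^ p + RatFunc.X * B ^ p = 0 ↔ A = 0 ∧ B = 0 := by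
  refine ⟨fun h => ?_, fun h => by simp [h.1, h.2, neq (p := p) F]⟩
  have hB : B = 0 := by
    by_contra hB
    refine den_ne (p := p) (-A / B) ?_
    rw [div_pow, negq, neg_eq_of_add_eq_zero_right h, mul_div_cancel_right₀ _ (pow_ne_zero _ hB),
      sub_self]
  exact ⟨by simpa [hB, neq (p := p) F] using h, hB⟩

theorem step (N : ℕ) (C : Sys.Eqn) (m : ℕ → RatFunc F) :
    Sys.evS RatFunc.X (fun v => m v ^ p ^ (N + 1)) (C.map fun s => (s.1, s.2.1 * p + 1, s.2.2)) =
      RatFunc.X * Sys.evS RatFunc.X (fun v => m v ^ p ^ N) C ^ p := by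
  rw [← pow_one p, frob]
  simp only [Sys.evS, ← List.sum_map_mul_left, List.map_map, pow_one]
  congr 1
  refine List.map_congr_left fun s _ => ?_
  simp only [Function.comp, pow_succ, pow_mul]
  ring

theorem merge (L : List Sys.Eqn) : ∃ (N : ℕ) (C : Sys.Eqn), ∀ m : ℕ → RatFunc F,
    Sys.evS RatFunc.X (fun v => m v ^ p ^ N) C = 0 ↔ ∀ E ∈ L, Sys.evS RatFunc.X m E = 0 := by
  induction L with
  | nil => exact ⟨0, [], fun _ => by simp [Sys.evS]⟩
  | cons E L ih =>
    obtain ⟨N, C, h⟩ := ih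
    refine ⟨N + 1, (E.map fun s => (s.1, s.2.1 * p ^ (N + 1), s.2.2)) ++
      C.map fun s => (s.1, s.2.1 * p + 1, s.2.2), fun m => ?_⟩
    rw [evS_append, ← frob, step, pow_succ p,
      pow_mul, split, h, List.forall_mem_cons, pow_eq_zero_iff (pow_ne_zero _ (neq F))]

theorem result (F : Type) [Field F] [Finite F] :
    ∃ (n : ℕ) (a : Fin (n + 1) → Fin n → ℕ) (c : Fin (n + 1) → Polynomial F),
      AffineIndependent ℚ (fun (j : Fin (n + 1)) (i : Fin n) => (a j i : ℚ)) ∧ a 0 = 0 ∧
      ¬ ComputablePred fun m : ℕ => ∃ x : Fin n → RatFunc F,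
        ∑ j, algebraMap (Polynomial F) (RatFunc F) (c j) * ∏ i, x i ^ a j i = RatFunc.X ^ m := by
  obtain ⟨l, _⟩ := CharP.exists F
  have hl := CharP.char_is_prime F l
  obtain ⟨p, hp⟩ : ∃ p, Fq F p := ⟨l ^ 2, by nlinarith [hl.two_le], l, 2, hl, ‹_›, rfl⟩
  have hre : REPred fun b : ℕ => (Code.eval (Denumerable.ofNat Code b) 0).Dom :=
    Partrec.comp (ComputablePred.halting_problem_re 0) (Primrec.ofNat Code).to_comp
  obtain ⟨T, hT, hS⟩ := pheidas (F := F) hp.three hre
  obtain ⟨β, _, Q, hQ, e⟩ := hT.ld (p := p)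
  obtain ⟨L, hL⟩ := hQ.eqns (Sum.elim (fun _ => 1) fun b => 7 * (Encodable.encode b.1 + 1) + b.2 + 1)
  obtain ⟨N, C, hC⟩ := merge (F := F) (p := p) L
  obtain ⟨G, c, hc⟩ := dense (F := F) ((1, 0, 1) :: C.map fun s => (s.1, s.2.1 * p + 1, s.2.2))
  refine ⟨7 * G, fun v u => ex p v u * p ^ (N + 1), fun v => c v,
    indep (neq F) (pow_ne_zero _ (neq F)) _, by funext u; simp [ex],
    fun h => ComputablePred.halting_problem 0 ?_⟩
  obtain ⟨D, hD, h⟩ := ComputablePred.computable_iff.1 h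
  refine ComputablePred.computable_iff.2 ⟨_, hD.comp (Primrec.nat_mul.comp Primrec.encode
    (.const (p ^ (N + 1)))).to_comp, funext fun q => (propext ?_).trans (congrFun h _)⟩
  have key : ∀ z : ℕ → RatFunc F, ∑ j : Fin (7 * G + 1), am (c j) * ∏ i : Fin (7 * G),
      z i ^ (ex p j i * p ^ (N + 1)) = RatFunc.X ^ (Encodable.encode q * p ^ (N + 1)) ↔
      z 0 = RatFunc.X ^ Encodable.encode q ∧ Q (Sum.elim (fun _ => z 0) fun b =>
        mn p (fun u => z (7 * (Encodable.encode b.1 + 1) + u)) b.2) := fun z => by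
    have h1 : ∑ j : Fin (7 * G + 1), am (c j) * ∏ i : Fin (7 * G), z i ^ (ex p j i * p ^ (N + 1)) =
        ∑ j ∈ range (7 * G + 1), am (c j) * mv p z j ^ p ^ (N + 1) := by
      rw [sum_range]
      refine sum_congr rfl fun j _ => ?_
      rw [← prod_ex j.2, ← prod_pow, prod_range]
      simp only [pow_mul]
    have h2 : mv p z 1 = z 0 := (mn_val p _).1
    rw [h1, hc _ (by omega), evS_cons, step, ← sub_eq_zero,
      add_sub_right_comm, pow_mul, ← subqs, pow_succ p,
      pow_mul, split, pow_eq_zero_iff (pow_ne_zero _ (neq F)), sub_eq_zero, hC, hL _ rfl, h2]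
    refine and_congr_right fun _ => iff_of_eq (congrArg Q (funext ?_))
    rintro (_ | ⟨b, s⟩)
    · exact h2
    · have := s.2
      simp only [Sum.elim_inr, mv, Nat.add_sub_cancel]
      rw [if_neg (by omega), show (7 * (Encodable.encode b + 1) + s) / 7 = Encodable.encode b + 1 by
        omega, show (7 * (Encodable.encode b + 1) + s) % 7 = s by omega]
  have hq := hS (Encodable.encode q)
  rw [Denumerable.ofNat_encode, e] at hq
  refine hq.trans ⟨fun ⟨z, hz⟩ => ⟨_, (key fun u => if u < 7 then RatFunc.X ^ Encodable.encode q else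
    ((Encodable.decode (u / 7 - 1)).map fun b => z b (u % 7)).getD 0).2
      ⟨rfl, (congrArg Q (funext ?_)).mp hz⟩⟩, fun ⟨x, hx⟩ => ?_⟩
  · rintro (_ | ⟨b, s⟩)
    · rfl
    · simp only [Sum.elim_inr, mn]
      refine prod_congr rfl fun u hu => ?_
      have := mem_range.1 hu
      rw [if_neg (by omega), show (7 * (Encodable.encode b + 1) + u) / 7 - 1 = Encodable.encode b by
        omega]
      simp [Nat.mod_eq_of_lt this]
  · obtain ⟨h1, h2⟩ := (key fun u => if h : u < 7 * G then x ⟨u, h⟩ else 0).1 (by simpa using hx)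
    rw [h1] at h2
    exact ⟨fun b u => if h : 7 * (Encodable.encode b + 1) + u < 7 * G then x ⟨_, h⟩ else 0, h2⟩

end Pool.Agent.Results.MP_c72338_lc.FunctionField
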