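import Pool.Agent.Lib.MP_c72338_lc.Fin
import Pool.Agent.Shared.MRDP

/-!
Integer zeros of polynomials with `n + 1` terms in `n` variables and affinely independent exponent
vectors are undecidable, already for one fixed `n` and one fixed family of exponent vectors.
-/

namespace Pool.Agent.Results.MP_c72338_lc.IntegerUndecidable

open Finset Pool.Agent.Lib.MP_c72338_lc Nat.Partrec

theorem sparse {m : ℕ} (p : MvPolynomial (Option (Fin m)) ℤ) :
    ∃ (N : ℕ) (e : ℕ → ℕ → ℕ) (b : ℕ → ℤ) (d : ℕ → ℕ), (∀ j < N, b j ≠ 0) ∧ ∀ (a : ℤ) (y : ℕ → ℤ),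
      ∑ j ∈ range N, b j * a ^ d j * ∏ i ∈ range m, y i ^ e j i =
        MvPolynomial.eval (fun o : Option (Fin m) => o.elim a fun i => y i) p := by
  classical
  refine ⟨p.support.toList.length,
    fun j i => if h : i < m then p.support.toList.getD j 0 (some ⟨i, h⟩) else 0,
    fun j => p.coeff (p.support.toList.getD j 0), fun j => p.support.toList.getD j 0 none,
    fun j hj => ?_, fun a y => ?_⟩
  · rw [← MvPolynomial.mem_support_iff, ← mem_toList, List.getD_eq_getElem _ _ hj]
    exact List.getElem_mem _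
  · rw [MvPolynomial.eval_eq', ← sum_map_toList p.support, ← Fin.sum_univ_fun_getElem, sum_range]
    refine sum_congr rfl fun j _ => ?_
    simp only [List.getD_eq_getElem _ _ j.2]
    simp [Fintype.prod_option, prod_range, mul_assoc]

theorem result : ∃ (n : ℕ) (a : Fin (n + 1) → Fin n → ℕ),
    AffineIndependent ℚ (fun (j : Fin (n + 1)) (i : Fin n) => (a j i : ℚ)) ∧
    ¬ ∃ D : (Fin (n + 1) → ℤ) → Bool, Computable D ∧ ∀ c : Fin (n + 1) → ℤ, (∀ j, c j ≠ 0) →
      ((∃ x : Fin n → ℤ, (∀ i, 1 ≤ x i) ∧ ∑ j, c j * ∏ i, x i ^ a j i = 0) → D c = true) ∧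
      (D c = true → ∃ x : Fin n → ℤ, ∑ j, c j * ∏ i, x i ^ a j i = 0) := by
  have hre : REPred fun b : ℕ => (Code.eval (Denumerable.ofNat Code (b - 1)) 0).Dom :=
    Partrec.comp (ComputablePred.halting_problem_re 0)
      ((Primrec.ofNat Code).comp (Primrec.nat_sub.comp .id (.const 1))).to_comp
  obtain ⟨m, p, hp⟩ := Pool.Agent.Shared.MRDP.mrdp_int hre
  obtain ⟨N, e, b, d, hb, hv⟩ := sparse p
  refine ⟨_, finA m N e, fin_indep m N e, fun ⟨D, hD, h⟩ => ComputablePred.halting_problem 0 ?_⟩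
  have c1 : ∀ j, Primrec fun k : ℕ => b j * ((k + 1 : ℕ) : ℤ) ^ d j := fun j =>
    prim_mul.comp (.const _) ((prim_cast.comp ((Primrec₂.unpaired'.1 Nat.Primrec.pow).comp
      Primrec.succ (.const (d j)))).of_eq fun k => by simp)
  have c2 : Primrec fun k : ℕ => finC m N fun j => b j * ((k + 1 : ℕ) : ℤ) ^ d j := by
    refine Primrec.fin_curry.2 (Primrec₂.swap (Primrec.fin_curry₁.2 ?_))
    refine Fin.cases (.const 1) fun j => ?_
    simp only [finC, Fin.cons_succ, coef]
    split_ifs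
    exacts [.const _, .const _, prim_mul.comp (c1 _) (c1 _), .const _]
  refine ComputablePred.computable_iff.2 ⟨_, hD.comp (c2.comp Primrec.encode).to_comp, ?_⟩
  funext q
  have hq := hp (Encodable.encode q + 1)
  simp only [Nat.add_sub_cancel, Denumerable.ofNat_encode] at hq
  have hc := h _ (finC_ne m N (fun j => b j * ((Encodable.encode q + 1 : ℕ) : ℤ) ^ d j)
    fun j hj => mul_ne_zero (hb j hj) (by positivity))
  refine propext ⟨fun k => hc.1 ?_, fun k => hq.2 ?_⟩
  · obtain ⟨x, hx, h0⟩ := hq.1 k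
    refine fin_complete m N e _ (fun i => if h : i < m then x ⟨i, h⟩ else 0)
      (fun i hi => by simp [hi, hx]) ?_
    simp only [Int.cast_id, hv]
    simpa using h0
  · obtain ⟨x, hx⟩ := hc.2 k
    obtain ⟨y, hy⟩ := fin_sound m N e _ x (fun i => or_iff_not_imp_left.2 Int.one_le_abs) hx
    exact ⟨fun i => y i, (hv _ y).symm.trans hy⟩

end Pool.Agent.Results.MP_c72338_lc.IntegerUndecidable
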