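import Pool.Agent.Lib.MP_c72338_lc.Red

/-!
A computable map from integer polynomials `f` to polynomials `P` with `n + 1` terms in `n` variables
and affinely independent exponent vectors such that, over every linearly ordered commutative ring,
zeros of `f` correspond to zeros of `P` outside the punctured open unit interval.
-/

namespace Pool.Agent.Results.MP_c72338_lc.OrderedRingReduction

open Pool.Agent.Lib.MP_c72338_lc

theorem result : ∃ r : List (ℤ × List ℕ) → ℕ × List (ℤ × List ℕ), Computable r ∧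
    ∀ f : List (ℤ × List ℕ), Honest (r f).1 (r f).2 ∧
      ∀ (R : Type) [CommRing R] [LinearOrder R] [IsStrictOrderedRing R],
        ((∃ x : ℕ → R, ev f x = 0) → ∃ z : ℕ → R, (∀ i, 1 ≤ z i) ∧ ev (r f).2 z = 0) ∧
        ((∃ z : ℕ → R, (∀ i, z i = 0 ∨ 1 ≤ |z i|) ∧ ev (r f).2 z = 0) →
          ∃ x : ℕ → R, ev f x = 0) :=
  ⟨red, computable_red, fun f => ⟨honest_red f, fun _ _ _ _ =>
    ⟨fun ⟨x, h⟩ => red_complete f x h, fun ⟨z, hz, h⟩ => red_sound f z hz h⟩⟩⟩

end Pool.Agent.Results.MP_c72338_lc.OrderedRingReduction
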