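import Pool.Agent.Lib.MP_c72338_lc.Sys

/-!
Hilbert's tenth problem over `ℚ` reduces to systems of polynomials that all have their exponent
vectors in one family of `n + 1` affinely independent vectors of `ℕ ^ n`.
-/

namespace Pool.Agent.Results.MP_c72338_lc.SimplexSystems

open Finset Pool.Agent.Lib.MP_c72338_lc Pool.Agent.Lib.MP_c72338_lc.Sys Pool.Agent.Shared.Type2

theorem rigid (H Ξ : ℚ) (h : 3 * H ^ 2 - 4 * Ξ ^ 3 + 1 = 0) : H ^ 2 = 1 := by
  by_contra h1
  refine fermatLastTheoremFor_iff_rat.1 fermatLastTheoremThree (1 + H) (1 - H) (2 * Ξ)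
    (fun h2 => h1 (by linear_combination (H - 1) * h2))
    (fun h2 => h1 (by linear_combination -(H + 1) * h2)) (fun h2 => ?_) (by linear_combination 2 * h)
  have : Ξ = 0 := by linarith
  subst this
  nlinarith [sq_nonneg H]

theorem expo_le (v u : ℕ) : Sys.expo 2 3 v u ≤ 3 := by
  have : ∀ s < 6, ∀ w < 6, tab 2 3 s w ≤ 3 := by decide
  unfold Sys.expo
  split_ifs
  exacts [by omega, this _ (Nat.mod_lt _ (by norm_num)) _ (Nat.mod_lt _ (by norm_num)), by omega]

theorem result : ∃ r : List (ℤ × List ℕ) → ℕ × List (List ℕ) × List (List (ℤ × List ℕ)),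
    Computable r ∧ ∀ f : List (ℤ × List ℕ),
      (r f).2.1.length = (r f).1 + 1 ∧
      (∀ a ∈ (r f).2.1, a.length = (r f).1 ∧ ∀ e ∈ a, e ≤ 3) ∧
      (AffineIndependent ℚ fun (j : Fin (r f).2.1.length) (i : Fin (r f).1) =>
        (((r f).2.1[j].getD i 0 : ℕ) : ℚ)) ∧
      (∀ P ∈ (r f).2.2, ∀ t ∈ P, t.2 ∈ (r f).2.1) ∧
      ((∃ x : ℕ → ℚ, ev f x = 0) ↔ ∃ z : ℕ → ℚ, ∀ P ∈ (r f).2.2, ev P z = 0) := by
  let g : Pl → Inp := fun f => f.map fun t => (t.1, 0, idx t.2)
  have hg : TD g := by unfold g; fun_prop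
  refine ⟨fun f => (30 * bnd (g f), (List.range (30 * bnd (g f) + 1)).map fun v =>
    Sys.mon 2 3 1 (30 * bnd (g f)) v, (sys 3 0 4 (g f)).map fun E => E.map fun s =>
      (s.1, Sys.mon 2 3 1 (30 * bnd (g f)) s.2.2)), TD.computable (by fun_prop), fun f =>
    ⟨by simp, ?_, indep_list (by norm_num) (by norm_num) (by norm_num) _ _ rfl, ?_, ?_⟩⟩
  · simp only [List.mem_map, Sys.mon]
    rintro _ ⟨v, -, rfl⟩
    simpa using fun u _ => expo_le v u
  · simp only [List.mem_map, List.mem_range]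
    rintro _ ⟨E, hE, rfl⟩ s hs
    obtain ⟨u, hu, rfl⟩ := List.mem_map.1 hs
    exact ⟨_, Nat.lt_succ_of_le (idx_le _ _ _ _ E hE u hu), rfl⟩
  · have h1 : ∀ x : ℕ → ℚ, evG 1 (g f) x = ev f x := fun x => by
      simp [evG, ev, g, Function.comp_def, prod_idx]
    have h2 : ∀ (n : ℕ) (E : Eqn) (z : ℕ → ℚ),
        ev (E.map fun s => (s.1, Sys.mon 2 3 1 n s.2.2)) z = evS 1 (mv 2 3 n z) E := fun n E z => by
      simp only [ev, evS, List.map_map, Function.comp_def, prod_mon, pow_one, one_pow, mul_one]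
    simp only [List.forall_mem_map, h2, ← h1]
    exact ⟨fun ⟨x, hx⟩ => Sys.complete (by norm_num) (by norm_num) 3 0 4 1 _ x hx,
      fun ⟨z, hz⟩ => Sys.sound (by norm_num) (by norm_num) 3 0 4 1 (by norm_num) (by norm_num)
        (by norm_num) (fun H Ξ h => rigid H Ξ (by push_cast at h; linear_combination h)) _ z hz⟩

end Pool.Agent.Results.MP_c72338_lc.SimplexSystems
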